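import Pool.Agent.helper54.UG.Spec

set_option autoImplicit false

namespace Pool.Agent.UG

open Matrix Pool.Agent.H48SL

/-- The exponential is injective on nilpotent matrices. -/
theorem IND_inj (hLG : LG_stmt) {n : ℕ} {X Y : MQ n} (hX : IsNilpotent X) (hY : IsNilpotent Y)
    (h : IsNilpotent.exp X = IsNilpotent.exp Y) : X = Y := by
  obtain ⟨P, _, _, h3⟩ := hLG n
  calc X = Polynomial.aeval (IsNilpotent.exp X - 1) P := (h3 X hX).symm
    _ = Polynomial.aeval (IsNilpotent.exp Y - 1) P := by rw [h]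
    _ = Y := h3 Y hY

theorem IND_UNil_mono {n : ℕ} {A B : Subgroup (SLZ n)} (h : B ≤ A) (hA : UNil A) : UNil B := by
  obtain ⟨N, hN⟩ := hA
  exact ⟨N, fun l hl hlen => hN l (fun a ha => h (hl a ha)) hlen⟩

/-- The elements of the subspace attached to `A`. -/
theorem IND_mem (hLG : LG_stmt) {n : ℕ} {A : Subgroup (SLZ n)} {𝔞 : Submodule ℚ (MQ n)}
    (hN : ANil 𝔞) (h2 : ∀ a ∈ A, ∃ X ∈ 𝔞, qg a = IsNilpotent.exp X) {X : MQ n}
    (hX : IsNilpotent X) {k : ℕ} (hk : 1 ≤ k) {a : SLZ n} (ha : a ∈ A)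
    (h : qg a = IsNilpotent.exp ((k : ℚ) • X)) : X ∈ 𝔞 := by
  obtain ⟨X', hX', h'⟩ := h2 a ha
  have hk0 : (k : ℚ) ≠ 0 := by
    have : k ≠ 0 := by omega
    exact_mod_cast this
  have hkX : IsNilpotent ((k : ℚ) • X) := hX.smul (k : ℚ)
  have h3 : (k : ℚ) • X = X' := IND_inj hLG hkX (hN.nil hX') (h.symm.trans h')
  have h4 : X = (k : ℚ)⁻¹ • X' := by rw [← h3, smul_smul, inv_mul_cancel₀ hk0, one_smul]
  rw [h4]
  exact 𝔞.smul_mem _ hX'

theorem IND (hEXJ : EXJ_stmt) (hLG : LG_stmt) (hMAL : MAL_stmt) : IND_stmt := by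
  intro n A hA 𝔞 hN h1 h2 m a ha hind
  -- the subgroup generated by the first `j` elements
  let S : ℕ → Subgroup (SLZ n) := fun j =>
    Subgroup.closure {b | ∃ i : Fin m, (i : ℕ) < j ∧ b = a i}
  have hSA : ∀ j, S j ≤ A := by
    intro j
    rw [Subgroup.closure_le]
    rintro b ⟨i, _, rfl⟩
    exact ha i
  have hSS : ∀ j, S j ≤ S (j + 1) := by
    intro j
    apply Subgroup.closure_mono
    rintro b ⟨i, hi, rfl⟩
    exact ⟨i, by omega, rfl⟩
  choose 𝔟 hbN hb1 hb2 using fun j => hMAL n (S j) (IND_UNil_mono (hSA j) hA)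
  have hle : ∀ j, 𝔟 j ≤ 𝔟 (j + 1) := by
    intro j X hX
    obtain ⟨k, hk, b, hb, h⟩ := hb1 j X hX
    exact IND_mem hLG (hbN (j + 1)) (hb2 (j + 1)) ((hbN j).nil hX) hk (hSS j hb) h
  have hlea : ∀ j, 𝔟 j ≤ 𝔞 := by
    intro j X hX
    obtain ⟨k, hk, b, hb, h⟩ := hb1 j X hX
    exact IND_mem hLG hN h2 ((hbN j).nil hX) hk (hSA j hb) h
  have key : ∀ j, j ≤ m → j ≤ Module.finrank ℚ (𝔟 j) := by
    intro j
    induction j with
    | zero => intro _; exact Nat.zero_le _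
    | succ j ih =>
      intro hj
      have h3 := ih (by omega)
      have hlt : 𝔟 j < 𝔟 (j + 1) := by
        refine lt_of_le_of_ne (hle j) fun heq => ?_
        have hjm : j < m := by omega
        have hmem : a ⟨j, hjm⟩ ∈ S (j + 1) :=
          Subgroup.subset_closure ⟨⟨j, hjm⟩, Nat.lt_succ_self j, rfl⟩
        obtain ⟨X, hX, hX'⟩ := hb2 (j + 1) _ hmem
        rw [← heq] at hX
        obtain ⟨k, hk, b, hb, h⟩ := hb1 j X hX
        have h5 : qg b = qg (a ⟨j, hjm⟩ ^ k) := by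
          rw [h, qg_pow, hX', (hEXJ n X ((hbN j).nil hX)).1 k]
        have h6 := qg_inj h5
        apply hind ⟨j, hjm⟩ k hk
        rw [← h6]
        exact hb
      have h4 := Submodule.finrank_lt_finrank_of_lt hlt
      omega
  exact (key m le_rfl).trans (Submodule.finrank_mono (hlea m))

end Pool.Agent.UG
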